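import Pool.Agent.Helper17_EU.Wire

/-! # Every nondegenerate Peano continuum with the even-cut property is Eulerian

The statement of the conjecture of MP_0dbebf_gt (Q1, positive answer). All definitions used by the
statement are in this file. -/

open Set Topology

noncomputable section

namespace Pool.Agent.Results.MP_0dbebf_gt.EvenCutsEulerian

universe u

/-- `e` is open and homeomorphic to the open interval `(0, 1)` -/
def IsFreeArc {X : Type u} [TopologicalSpace X] (e : Set X) : Prop :=
  IsOpen e ∧ Nonempty (e ≃ₜ Ioo (0 : ℝ) 1)

/-- edges: free arcs which are maximal under inclusion -/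
def IsEdge {X : Type u} [TopologicalSpace X] (e : Set X) : Prop :=
  IsFreeArc e ∧ ∀ e' : Set X, IsFreeArc e' → e ⊆ e' → e' = e

/-- the ground space: complement of the union of all edges -/
def ground (X : Type u) [TopologicalSpace X] : Set X := (⋃₀ {e : Set X | IsEdge e})ᶜ

/-- `a` and `b` are the limits of `e` at its two ends -/
def HasEnds {X : Type u} [TopologicalSpace X] (e : Set X) (a b : X) : Prop :=
  ∃ φ : e ≃ₜ Ioo (0 : ℝ) 1,
    Filter.Tendsto (fun t : Ioo (0 : ℝ) 1 => ((φ.symm t : e) : X))
      (Filter.comap Subtype.val (𝓝 0)) (𝓝 a) ∧
    Filter.Tendsto (fun t : Ioo (0 : ℝ) 1 => ((φ.symm t : e) : X))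
      (Filter.comap Subtype.val (𝓝 1)) (𝓝 b)

/-- the set of edges with one end point in `A` and the other in `B` -/
def edgeCut {X : Type u} [TopologicalSpace X] (A B : Set X) : Set (Set X) :=
  {e | IsEdge e ∧ ∃ a ∈ A, ∃ b ∈ B, HasEnds e a b}

/-- the even-cut property: for every partition of the ground space into two closed sets
the number of edges between them is even -/
def EvenCutProperty (X : Type u) [TopologicalSpace X] : Prop :=
  ∀ A B : Set X, IsClosed A → IsClosed B → Disjoint A B → A ∪ B = ground X →
    Even (edgeCut A B).ncard

/-- there is a strongly irreducible continuous surjection from the circle onto `X` -/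
def Eulerian (X : Type u) [TopologicalSpace X] : Prop :=
  ∃ g : C(Circle, X), Function.Surjective g ∧ ∀ C : Set Circle, IsClosed C → C ≠ univ →
    g '' C ≠ univ

/-- Every nondegenerate Peano continuum with the even-cut property is Eulerian. -/
theorem result : ∀ (X : Type u) [MetricSpace X] [CompactSpace X] [ConnectedSpace X]
    [LocallyConnectedSpace X] [Nontrivial X], EvenCutProperty X → Eulerian X := by
  intro X _ _ _ _ _ h
  exact Pool.Agent.EU.main X h

end Pool.Agent.Results.MP_0dbebf_gt.EvenCutsEulerian
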